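import Mathlib
import Pool.Agent.H247R2.Ham4Data

set_option autoImplicit false

namespace Pool.Agent.H247R2.Ham4

/-! ### Finite checks on the neighbour table -/

def rangeP (i k : ℕ) : Bool := Nat.ble 246 (nbr i k) && Nat.blt (nbr i k) 492

theorem check_rangeP : allLt 246 (fun i => allLt 4 (fun k => rangeP i k)) = true := by
  decide +kernel

theorem check_rangeL : allLt 246 (fun j => allLt 4 (fun k => Nat.blt (nbr (246 + j) k) 246)) = true := by
  decide +kernel

def dist4 (v : ℕ) : Bool :=
  !(nbr v 0 == nbr v 1) && !(nbr v 0 == nbr v 2) && !(nbr v 0 == nbr v 3) &&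
  !(nbr v 1 == nbr v 2) && !(nbr v 1 == nbr v 3) && !(nbr v 2 == nbr v 3)

theorem check_dist : allLt 492 dist4 = true := by decide +kernel

def linC (v a b : ℕ) : Bool :=
  !(nbr (nbr v 0) a == nbr (nbr v 1) b) || (nbr (nbr v 0) a == v)

theorem check_lin : allLt 492 (fun v => allLt 4 (fun a => allLt 4 (fun b => linC v a b))) = true := by
  decide +kernel

theorem check_Z : allLt 246 (fun i => !(pn i 2 == 140737488355328)) = true := by decide +kernel

theorem check_AB : allLt 246 (fun j => !(ln j 0 == 140737488355328) ||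
    !(ln j 1 == 140737488355328)) = true := by decide +kernel

/-! ### Gadgets -/

def gad (v : ℕ) : ℕ :=
  if v < 120 then v / 20 else if v < 246 then 6 + (v - 120) / 21
  else if v < 372 then (v - 246) / 21 else 6 + (v - 372) / 20

def core (v : ℕ) : Bool := if v < 246 then Nat.blt (gad v) 6 else Nat.ble 6 (gad v)

/-- adjacency of the gadgets -/
def gadj : ℕ → List ℕ
  | 0 => [6, 7]
  | 1 => [6, 8, 9]
  | 2 => [6, 10, 11]
  | 3 => [7, 8, 11]
  | 4 => [7, 9, 10]
  | 5 => [9, 11]
  | 6 => [0, 1, 2]
  | 7 => [0, 3, 4]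
  | 8 => [1, 3]
  | 9 => [1, 4, 5]
  | 10 => [2, 4]
  | _ => [2, 3, 5]

def gadC (v k : ℕ) : Bool :=
  (!(core v) || ((gad (nbr v k) == gad v) && !(core (nbr v k)))) &&
  (!(gad (nbr v k) == gad v) || core v || core (nbr v k)) &&
  ((gad (nbr v k) == gad v) || (gadj (gad v)).contains (gad (nbr v k)))

theorem check_gad : allLt 492 (fun v => allLt 4 (fun k => gadC v k)) = true := by decide +kernel

/-- number of `v < n` with property `f` -/
def countLt : ℕ → (ℕ → Bool) → ℕ
  | 0, _ => 0
  | n + 1, f => (if f n then 1 else 0) + countLt n f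

theorem countLt_eq (n : ℕ) (f : ℕ → Bool) :
    countLt n f = ((Finset.univ : Finset (Fin n)).filter (fun v : Fin n => f (v : ℕ) = true)).card := by
  induction n with
  | zero => simp [countLt]
  | succ n ih =>
    rw [countLt, ih, Fin.univ_castSuccEmb, Finset.filter_cons]
    split_ifs with h h2 h2
    · rw [Finset.card_cons, Finset.filter_map, Finset.card_map, add_comm]
      rfl
    · exact absurd h (by simpa using h2)
    · exact absurd h2 (by simpa using h)
    · rw [Finset.filter_map, Finset.card_map, zero_add]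
      rfl

theorem check_count : allLt 12 (fun g => (countLt 492 (fun v => gad v == g) == 41) &&
    (countLt 492 (fun v => (gad v == g) && core v) == 20)) = true := by decide +kernel

theorem check_gadlt : allLt 492 (fun v => Nat.blt (gad v) 12) = true := by decide +kernel

/-- search for a Hamiltonian cycle of the gadget graph -/
def ham : ℕ → ℕ → List ℕ → Bool
  | 0, cur, _ => (gadj cur).contains 0
  | n + 1, cur, vis => (gadj cur).any (fun w => !(vis.contains w) && ham n w (w :: vis))

theorem check_ham : ham 11 0 [0] = false := by decide +kernel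

/-! ### Paths -/

def walk : ℕ → ℕ → ℕ → List ℕ
  | 0, _, _ => []
  | len + 1, s, v => nbr v (s % 4) :: walk len (s / 4) (nbr v (s % 4))

def lastD : List ℕ → ℕ → ℕ
  | [], d => d
  | a :: l, _ => lastD l a

def ndm : List ℕ → ℕ → Bool
  | [], _ => true
  | a :: l, m => !(Nat.testBit m a) && ndm l (m ||| (1 <<< a))

def fw (v k : ℕ) : List ℕ :=
  walk (((FAN >>> (64 * (4 * v + k))) % 18446744073709551616) % 64)
    (((FAN >>> (64 * (4 * v + k))) % 18446744073709551616) / 64) v

def isRoot (v : ℕ) : Bool := (v == root 0) || (v == root 1) || (v == root 2) || (v == root 3)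

def fanOK (v : ℕ) : Bool :=
  isRoot v || (ndm (fw v 0 ++ (fw v 1 ++ (fw v 2 ++ fw v 3))) 0 &&
    (lastD (fw v 0) v == root 0) && (lastD (fw v 1) v == root 1) &&
    (lastD (fw v 2) v == root 2) && (lastD (fw v 3) v == root 3))

theorem check_fan : allLt 492 fanOK = true := by decide +kernel

def pidx : ℕ → ℕ → ℕ
  | 0, 1 => 0
  | 0, 2 => 1
  | 0, 3 => 2
  | 1, 2 => 3
  | 1, 3 => 4
  | _, _ => 5

def pw (i j k : ℕ) : List ℕ :=
  walk (((PAIR >>> (128 * (4 * pidx i j + k))) % 340282366920938463463374607431768211456) % 64)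
    (((PAIR >>> (128 * (4 * pidx i j + k))) % 340282366920938463463374607431768211456) / 64) (root i)

def pairOK (i j : ℕ) : Bool :=
  ndm ((pw i j 0).dropLast ++ ((pw i j 1).dropLast ++ ((pw i j 2).dropLast ++ (pw i j 3).dropLast))) 0 &&
    (lastD (pw i j 0) (root i) == root j) && (lastD (pw i j 1) (root i) == root j) &&
    (lastD (pw i j 2) (root i) == root j) && (lastD (pw i j 3) (root i) == root j)

theorem check_pair : allLt 4 (fun j => allLt j (fun i => pairOK i j)) = true := by decide +kernel

theorem check_root : allLt 4 (fun i => Nat.blt (root i) 492) = true := by decide +kernel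

end Pool.Agent.H247R2.Ham4
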