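import Mathlib
import Pool.Agent.H247R2.Ham4Comb

set_option autoImplicit false

namespace Pool.Agent.H247R2.Ham4

/-! ### Soundness of the connectivity certificates -/

theorem nbr_lt {v k : ℕ} (hv : v < 492) (hk : k < 4) : nbr v k < 492 := by
  by_cases h : v < 246
  · have := (allLt_iff.mp ((allLt_iff.mp check_rangeP) v h)) k hk
    simp only [rangeP, Bool.and_eq_true, Nat.blt_eq] at this
    exact this.2
  · obtain ⟨j, rfl⟩ := Nat.exists_eq_add_of_le (not_lt.mp h)
    have := (allLt_iff.mp ((allLt_iff.mp check_rangeL) j (by omega))) k hk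
    rw [Nat.blt_eq] at this
    omega

theorem nbr_ge {v k : ℕ} (hv : v < 246) (hk : k < 4) : 246 ≤ nbr v k := by
  have := (allLt_iff.mp ((allLt_iff.mp check_rangeP) v hv)) k hk
  simp only [rangeP, Bool.and_eq_true, Nat.ble_eq] at this
  exact this.1

theorem nbr_lt' {v k : ℕ} (hv : v < 492) (hv' : 246 ≤ v) (hk : k < 4) : nbr v k < 246 := by
  obtain ⟨j, rfl⟩ := Nat.exists_eq_add_of_le hv'
  have := (allLt_iff.mp ((allLt_iff.mp check_rangeL) j (by omega))) k hk
  rwa [Nat.blt_eq] at this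

theorem isN_iff {v w : ℕ} : isN v w = true ↔ ∃ k, k < 4 ∧ nbr v k = w := by
  simp only [isN, Bool.or_eq_true, beq_iff_eq]
  constructor
  · rintro (((h | h) | h) | h)
    · exact ⟨0, by omega, h⟩
    · exact ⟨1, by omega, h⟩
    · exact ⟨2, by omega, h⟩
    · exact ⟨3, by omega, h⟩
  · rintro ⟨k, hk, h⟩
    interval_cases k <;> tauto

theorem isN_symm {v w : ℕ} (hv : v < 492) (hw : w < 492) (h : isN v w = true) :
    isN w v = true := by
  by_cases h1 : v < 246
  · have h2 : 246 ≤ w := by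
      obtain ⟨k, hk, rfl⟩ := isN_iff.mp h
      exact nbr_ge h1 hk
    obtain ⟨j, rfl⟩ := Nat.exists_eq_add_of_le h2
    have := (allLt_iff.mp ((allLt_iff.mp check_symm) v h1)) j (by omega)
    rw [beq_iff_eq] at this
    rw [← this]; exact h
  · have h2 : w < 246 := by
      obtain ⟨k, hk, rfl⟩ := isN_iff.mp h
      exact nbr_lt' hv (by omega) hk
    obtain ⟨j, rfl⟩ := Nat.exists_eq_add_of_le (not_lt.mp h1)
    have := (allLt_iff.mp ((allLt_iff.mp check_symm) w h2)) j (by omega)
    rw [beq_iff_eq] at this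
    rw [this]; exact h

/-- one step avoiding `T` -/
def Step (T : Finset ℕ) (u w : ℕ) : Prop :=
  u < 492 ∧ w < 492 ∧ isN u w = true ∧ u ∉ T ∧ w ∉ T

/-- reachability avoiding `T` -/
def Rch (T : Finset ℕ) : ℕ → ℕ → Prop := Relation.ReflTransGen (Step T)

theorem Step.symm {T : Finset ℕ} {u w : ℕ} (h : Step T u w) : Step T w u :=
  ⟨h.2.1, h.1, isN_symm h.1 h.2.1 h.2.2.1, h.2.2.2.2, h.2.2.2.1⟩

theorem Rch.symm {T : Finset ℕ} {u w : ℕ} (h : Rch T u w) : Rch T w u := by
  induction h with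
  | refl => exact Relation.ReflTransGen.refl
  | tail _ hs ih => exact Relation.ReflTransGen.head hs.symm ih

theorem Rch.trans {T : Finset ℕ} {u w x : ℕ} (h : Rch T u w) (h' : Rch T w x) : Rch T u x :=
  Relation.ReflTransGen.trans h h'

theorem walk_reach (T : Finset ℕ) : ∀ (len s v : ℕ), v < 492 → v ∉ T →
    (∀ x ∈ walk len s v, x ∉ T) → Rch T v (lastD (walk len s v) v) := by
  intro len
  induction len with
  | zero => intro s v _ _ _; exact Relation.ReflTransGen.refl
  | succ len ih =>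
    intro s v hv hvT h
    simp only [walk, lastD]
    have hk : s % 4 < 4 := Nat.mod_lt _ (by norm_num)
    have h1 : nbr v (s % 4) ∉ T := h _ (by simp [walk])
    have h2 : nbr v (s % 4) < 492 := nbr_lt hv hk
    refine Relation.ReflTransGen.head ⟨hv, h2, isN_iff.mpr ⟨_, hk, rfl⟩, hvT, h1⟩ ?_
    exact ih _ _ h2 h1 (fun x hx => h x (by simp [walk, hx]))

theorem ndm_spec : ∀ (l : List ℕ) (m : ℕ), ndm l m = true →
    l.Nodup ∧ ∀ x ∈ l, Nat.testBit m x = false := by
  intro l
  induction l with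
  | nil => intro m _; simp
  | cons a l ih =>
    intro m h
    simp only [ndm, Bool.and_eq_true, Bool.not_eq_true'] at h
    obtain ⟨h1, h2⟩ := ih _ h.2
    have key : ∀ x ∈ l, m.testBit x = false ∧ x ≠ a := by
      intro x hx
      have := h2 x hx
      rw [Nat.testBit_or, Bool.or_eq_false_iff] at this
      refine ⟨this.1, ?_⟩
      rintro rfl
      have h3 := this.2
      rw [Nat.one_shiftLeft, Nat.testBit_two_pow_self] at h3
      exact absurd h3 (by simp)
    refine ⟨List.nodup_cons.mpr ⟨fun ha => (key a ha).2 rfl, h1⟩, ?_⟩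
    intro x hx
    rcases List.mem_cons.mp hx with rfl | hx
    · exact h.1
    · exact (key x hx).1

/-- four pairwise disjoint lists cannot all be hit by at most three elements -/
theorem exists_avoiding (T : Finset ℕ) (hT : T.card < 4) (l : ℕ → List ℕ)
    (hl : (l 0 ++ (l 1 ++ (l 2 ++ l 3))).Nodup) : ∃ k, k < 4 ∧ ∀ x ∈ l k, x ∉ T := by
  by_contra hcon
  push Not at hcon
  obtain ⟨a, ha, haT⟩ := hcon 0 (by norm_num)
  obtain ⟨b, hb, hbT⟩ := hcon 1 (by norm_num)
  obtain ⟨c, hc, hcT⟩ := hcon 2 (by norm_num)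
  obtain ⟨d, hd, hdT⟩ := hcon 3 (by norm_num)
  rw [List.nodup_append, List.nodup_append, List.nodup_append] at hl
  obtain ⟨-, ⟨-, ⟨-, -, h1⟩, h2⟩, h3⟩ := hl
  have hab : a ≠ b := h3 a ha b (by simp [hb])
  have hac : a ≠ c := h3 a ha c (by simp [hc])
  have had : a ≠ d := h3 a ha d (by simp [hd])
  have hbc : b ≠ c := h2 b hb c (by simp [hc])
  have hbd : b ≠ d := h2 b hb d (by simp [hd])
  have hcd : c ≠ d := h1 c hc d hd
  have hsub : ({a, b, c, d} : Finset ℕ) ⊆ T := by
    intro x hx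
    simp only [Finset.mem_insert, Finset.mem_singleton] at hx
    rcases hx with rfl | rfl | rfl | rfl <;> assumption
  have := Finset.card_le_card hsub
  rw [Finset.card_insert_of_notMem (by simp [hab, hac, had]),
    Finset.card_insert_of_notMem (by simp [hbc, hbd]),
    Finset.card_insert_of_notMem (by simp [hcd]), Finset.card_singleton] at this
  omega

theorem lastD_mem : ∀ (l : List ℕ) (d : ℕ), l ≠ [] → lastD l d ∈ l := by
  intro l
  induction l with
  | nil => intro d h; exact absurd rfl h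
  | cons a l ih =>
    intro d _
    simp only [lastD]
    by_cases hl : l = []
    · subst hl; simp [lastD]
    · exact List.mem_cons_of_mem _ (ih a hl)

theorem lastD_getLast : ∀ (l : List ℕ) (d : ℕ), l ≠ [] → ∀ x ∈ l, x ∈ l.dropLast ∨ x = lastD l d := by
  intro l
  induction l with
  | nil => intro d h; exact absurd rfl h
  | cons a l ih =>
    intro d _ x hx
    simp only [lastD]
    by_cases hl : l = []
    · subst hl
      right
      simpa [lastD] using hx
    · rw [List.dropLast_cons_of_ne_nil hl]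
      rcases List.mem_cons.mp hx with rfl | hx
      · left; simp
      · rcases ih a hl x hx with h | h
        · left; exact List.mem_cons_of_mem _ h
        · right; exact h

theorem root_lt (k : ℕ) (hk : k < 4) : root k < 492 := by
  have := (allLt_iff.mp check_root) k hk
  rwa [Nat.blt_eq] at this

theorem isRoot_iff {v : ℕ} : isRoot v = true ↔ ∃ k, k < 4 ∧ v = root k := by
  simp only [isRoot, Bool.or_eq_true, beq_iff_eq]
  constructor
  · rintro (((h | h) | h) | h)
    · exact ⟨0, by omega, h⟩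
    · exact ⟨1, by omega, h⟩
    · exact ⟨2, by omega, h⟩
    · exact ⟨3, by omega, h⟩
  · rintro ⟨k, hk, h⟩
    interval_cases k <;> tauto

theorem fw_eq (v k : ℕ) : ∃ a b, fw v k = walk a b v := ⟨_, _, rfl⟩
theorem pw_eq (i j k : ℕ) : ∃ a b, pw i j k = walk a b (root i) := ⟨_, _, rfl⟩

attribute [local irreducible] fw pw nbr root

theorem reach_root (T : Finset ℕ) (hT : T.card < 4) {v : ℕ} (hv : v < 492) (hvT : v ∉ T) :
    ∃ k, k < 4 ∧ root k ∉ T ∧ Rch T v (root k) := by
  have h := (allLt_iff.mp check_fan) v hv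
  rw [fanOK, Bool.or_eq_true] at h
  rcases h with h | h
  · obtain ⟨k, hk, rfl⟩ := isRoot_iff.mp h
    exact ⟨k, hk, hvT, Relation.ReflTransGen.refl⟩
  · by_cases hr : isRoot v = true
    · obtain ⟨k, hk, rfl⟩ := isRoot_iff.mp hr
      exact ⟨k, hk, hvT, Relation.ReflTransGen.refl⟩
    simp only [Bool.and_eq_true, beq_iff_eq] at h
    obtain ⟨⟨⟨⟨h1, e0⟩, e1⟩, e2⟩, e3⟩ := h
    obtain ⟨hn, -⟩ := ndm_spec _ _ h1
    obtain ⟨k, hk, hav⟩ := exists_avoiding T hT (fun k => fw v k) hn
    have ek : lastD (fw v k) v = root k := by interval_cases k <;> assumption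
    have hne : fw v k ≠ [] := by
      intro he
      rw [he] at ek
      exact hr (isRoot_iff.mpr ⟨k, hk, ek⟩)
    have hmem := lastD_mem (fw v k) v hne
    rw [ek] at hmem
    refine ⟨k, hk, hav _ hmem, ?_⟩
    rw [← ek]
    obtain ⟨a, b, hab⟩ := fw_eq v k
    rw [hab] at hav ⊢
    exact walk_reach T _ _ v hv hvT hav

theorem reach_roots (T : Finset ℕ) (hT : T.card < 4) {i j : ℕ} (hij : i < j) (hj : j < 4)
    (hi' : root i ∉ T) (hj' : root j ∉ T) : Rch T (root i) (root j) := by
  have h := (allLt_iff.mp ((allLt_iff.mp check_pair) j hj)) i hij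
  simp only [pairOK, Bool.and_eq_true, beq_iff_eq] at h
  obtain ⟨⟨⟨⟨h1, e0⟩, e1⟩, e2⟩, e3⟩ := h
  obtain ⟨hn, -⟩ := ndm_spec _ _ h1
  obtain ⟨k, hk, hav⟩ := exists_avoiding T hT (fun k => (pw i j k).dropLast) hn
  have ek : lastD (pw i j k) (root i) = root j := by interval_cases k <;> assumption
  have hav2 : ∀ x ∈ pw i j k, x ∉ T := by
    intro x hx
    rcases lastD_getLast _ (root i) (List.ne_nil_of_mem hx) x hx with h | h
    · exact hav x h
    · rw [h, ek]
      exact hj'
  rw [← ek]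
  obtain ⟨a, b, hab⟩ := pw_eq i j k
  rw [hab] at hav2 ⊢
  exact walk_reach T _ _ (root i) (root_lt i (by omega)) hi' hav2

theorem reach_all (T : Finset ℕ) (hT : T.card < 4) {u v : ℕ} (hu : u < 492) (hv : v < 492)
    (huT : u ∉ T) (hvT : v ∉ T) : Rch T u v := by
  obtain ⟨i, hi, hiT, h1⟩ := reach_root T hT hu huT
  obtain ⟨j, hj, hjT, h2⟩ := reach_root T hT hv hvT
  refine h1.trans (Rch.trans ?_ h2.symm)
  rcases lt_trichotomy i j with h | h | h
  · exact reach_roots T hT h hj hiT hjT
  · subst h; exact Relation.ReflTransGen.refl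
  · exact (reach_roots T hT h hi hjT hiT).symm

end Pool.Agent.H247R2.Ham4
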