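import Mathlib
import Pool.Agent.H247R2.Ham4Conn

set_option autoImplicit false

namespace Pool.Agent.H247R2.Ham4

/-! ### No Hamiltonian cycle -/

theorem gad_lt {v : ℕ} (hv : v < 492) : gad v < 12 := by
  have := (allLt_iff.mp check_gadlt) v hv
  rwa [Nat.blt_eq] at this

theorem gad_facts {v w : ℕ} (hv : v < 492) (h : isN v w = true) :
    (core v = true → gad w = gad v ∧ core w = false) ∧
    (gad w = gad v → core v = true ∨ core w = true) ∧
    (gad w = gad v ∨ gad w ∈ gadj (gad v)) := by
  obtain ⟨k, hk, rfl⟩ := isN_iff.mp h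
  have := (allLt_iff.mp ((allLt_iff.mp check_gad) v hv)) k hk
  simp only [gadC, Bool.and_eq_true, Bool.or_eq_true, Bool.not_eq_true', beq_iff_eq,
    beq_eq_false_iff_ne, List.contains_iff_mem] at this
  obtain ⟨⟨h1, h2⟩, h3⟩ := this
  refine ⟨?_, ?_, ?_⟩
  · intro hc
    rcases h1 with h1 | h1
    · rw [hc] at h1; exact absurd h1 (by simp)
    · exact h1
  · intro hg
    rcases h2 with (h2 | h2) | h2
    · exact absurd hg h2
    · exact Or.inl h2
    · exact Or.inr h2
  · exact h3

theorem counts {g : ℕ} (hg : g < 12) :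
    ((Finset.univ : Finset (Fin 492)).filter (fun v : Fin 492 => gad (v : ℕ) = g)).card = 41 ∧
    ((Finset.univ : Finset (Fin 492)).filter
      (fun v : Fin 492 => gad (v : ℕ) = g ∧ core (v : ℕ) = true)).card = 20 := by
  have := (allLt_iff.mp check_count) g hg
  simp only [Bool.and_eq_true, beq_iff_eq] at this
  rw [countLt_eq, countLt_eq] at this
  constructor
  · rw [← this.1]
    exact congrArg Finset.card (Finset.filter_congr (fun v _ => by rw [beq_iff_eq]))
  · rw [← this.2]
    exact congrArg Finset.card (Finset.filter_congr (fun v _ => by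
      rw [Bool.and_eq_true, beq_iff_eq]))

theorem exists_out (s : Fin 492 → Fin 492) (hinj : Function.Injective s)
    (hadj : ∀ v : Fin 492, isN v (s v) = true) {g : ℕ} (hg : g < 12) :
    ∃ o : Fin 492, gad o = g ∧ gad (s o) ≠ g ∧
      ∀ v : Fin 492, gad v = g → gad (s v) ≠ g → v = o := by
  classical
  obtain ⟨hX, hQ⟩ := counts hg
  set X := (Finset.univ : Finset (Fin 492)).filter (fun v : Fin 492 => gad (v : ℕ) = g) with hXdef
  set Q := (Finset.univ : Finset (Fin 492)).filter
      (fun v : Fin 492 => gad (v : ℕ) = g ∧ core (v : ℕ) = true) with hQdef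
  set I := (Finset.univ : Finset (Fin 492)).filter
      (fun v : Fin 492 => gad (v : ℕ) = g ∧ gad (s v : ℕ) = g) with hIdef
  let e : Fin 492 ≃ Fin 492 := Equiv.ofBijective s (Finite.injective_iff_bijective.mp hinj)
  have he : ∀ v, e v = s v := fun v => rfl
  set R := Q.map e.symm.toEmbedding with hRdef
  have hR : R.card = 20 := by rw [hRdef, Finset.card_map, hQ]
  have memR : ∀ v, v ∈ R ↔ s v ∈ Q := by
    intro v
    rw [hRdef, Finset.mem_map_equiv, Equiv.symm_symm, he]
  have hback : ∀ v : Fin 492, isN (s v) v = true := fun v => isN_symm v.2 (s v).2 (hadj v)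
  have hI : I = Q ∪ R := by
    ext v
    rw [Finset.mem_union, memR]
    simp only [hIdef, hQdef, Finset.mem_filter, Finset.mem_univ, true_and]
    constructor
    · rintro ⟨h1, h2⟩
      rcases (gad_facts v.2 (hadj v)).2.1 (h2.trans h1.symm) with h | h
      · exact Or.inl ⟨h1, h⟩
      · exact Or.inr ⟨h2, h⟩
    · rintro (⟨h1, h2⟩ | ⟨h1, h2⟩)
      · exact ⟨h1, ((gad_facts v.2 (hadj v)).1 h2).1.trans h1⟩
      · exact ⟨((gad_facts (s v).2 (hback v)).1 h2).1.trans h1, h1⟩
  have hdisj : Disjoint Q R := by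
    rw [Finset.disjoint_left]
    intro v hv hv'
    rw [memR] at hv'
    simp only [hQdef, Finset.mem_filter, Finset.mem_univ, true_and] at hv hv'
    have := ((gad_facts v.2 (hadj v)).1 hv.2).2
    rw [hv'.2] at this
    exact absurd this (by simp)
  have hIc : I.card = 40 := by rw [hI, Finset.card_union_of_disjoint hdisj, hQ, hR]
  have hIX : I ⊆ X := by
    intro v
    simp only [hIdef, hXdef, Finset.mem_filter, Finset.mem_univ, true_and]
    exact fun h => h.1
  have h1 : (X \ I).card = 1 := by rw [Finset.card_sdiff_of_subset hIX, hX, hIc]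
  obtain ⟨o, ho⟩ := Finset.card_eq_one.mp h1
  have mem : ∀ v, v ∈ X \ I ↔ gad v = g ∧ gad (s v) ≠ g := by
    intro v
    simp only [hIdef, hXdef, Finset.mem_sdiff, Finset.mem_filter, Finset.mem_univ, true_and]
    constructor
    · rintro ⟨h3, h4⟩
      exact ⟨h3, fun h5 => h4 ⟨h3, h5⟩⟩
    · rintro ⟨h3, h4⟩
      exact ⟨h3, fun h5 => h4 h5.2⟩
  have h2 := (mem o).mp (by rw [ho]; simp)
  refine ⟨o, h2.1, h2.2, ?_⟩
  intro v hv hv'
  have := (mem v).mpr ⟨hv, hv'⟩
  rw [ho] at this
  exact Finset.mem_singleton.mp this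

def vis (a : ℕ → ℕ) : ℕ → List ℕ
  | 0 => [a 0]
  | k + 1 => a (k + 1) :: vis a k

theorem mem_vis (a : ℕ → ℕ) (k x : ℕ) : x ∈ vis a k ↔ ∃ i, i ≤ k ∧ x = a i := by
  induction k with
  | zero => simp [vis]
  | succ k ih =>
    simp only [vis, List.mem_cons, ih]
    constructor
    · rintro (h | ⟨i, hi, h⟩)
      · exact ⟨k + 1, le_refl _, h⟩
      · exact ⟨i, by omega, h⟩
    · rintro ⟨i, hi, h⟩
      rcases Nat.lt_or_ge k i with h1 | h1
      · left; rw [h]; congr 1; omega
      · right; exact ⟨i, h1, h⟩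

theorem ham_sound (a : ℕ → ℕ) (h : ∀ k, a (k + 1) ∈ gadj (a k))
    (hd : ∀ i j, i < j → j < 12 → a i ≠ a j) (h12 : a 12 = 0) :
    ∀ j, j ≤ 11 → ham j (a (11 - j)) (vis a (11 - j)) = true := by
  intro j
  induction j with
  | zero =>
    intro _
    simp only [ham, Nat.sub_zero, List.contains_iff_mem]
    rw [← h12]
    exact h 11
  | succ j ih =>
    intro hj
    simp only [ham, List.any_eq_true]
    refine ⟨a (11 - j), ?_, ?_⟩
    · have := h (11 - (j + 1))
      rwa [show 11 - (j + 1) + 1 = 11 - j by omega] at this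
    · rw [Bool.and_eq_true]
      constructor
      · rw [Bool.not_eq_true', ← Bool.not_eq_true, List.contains_iff_mem, mem_vis]
        rintro ⟨i, hi, hi2⟩
        exact hd i (11 - j) (by omega) (by omega) hi2.symm
      · have := ih (by omega)
        rw [show 11 - j = 11 - (j + 1) + 1 by omega] at this ⊢
        exact this

theorem no_cycle (s : Fin 492 → Fin 492) (hinj : Function.Injective s)
    (hadj : ∀ v : Fin 492, isN v (s v) = true)
    (hcl : ∀ S : Set (Fin 492), S.Nonempty → (∀ v ∈ S, s v ∈ S) → S = Set.univ) : False := by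
  classical
  have hout : ∀ g : Fin 12, ∃ o : Fin 492, gad o = g ∧ gad (s o) ≠ g ∧
      ∀ v : Fin 492, gad v = g → gad (s v) ≠ g → v = o := fun g => exists_out s hinj hadj g.2
  choose o ho1 ho2 ho3 using hout
  let f : Fin 12 → Fin 12 := fun g => ⟨gad (s (o g)), gad_lt (s (o g)).2⟩
  let b : ℕ → Fin 12 := fun k => f^[k] 0
  have hb : ∀ k, b (k + 1) = f (b k) := fun k => Function.iterate_succ_apply' f k 0
  let a : ℕ → ℕ := fun k => (b k : ℕ)
  have ha1 : ∀ k, a (k + 1) ∈ gadj (a k) := by
    intro k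
    have h1 := (gad_facts (o (b k)).2 (hadj (o (b k)))).2.2
    rw [ho1] at h1
    rcases h1 with h1 | h1
    · exact absurd h1 (ho2 _)
    · change ((b (k + 1) : Fin 12) : ℕ) ∈ gadj ((b k : Fin 12) : ℕ)
      rw [hb]
      exact h1
  have closed : ∀ m : ℕ, ∀ g : Fin 12, ∃ k, m ≤ k ∧ b k = g := by
    intro m g
    have hS := hcl {v | ∃ k, m ≤ k ∧ gad v = b k} ⟨o (b m), m, le_refl _, ho1 _⟩ (by
      rintro v ⟨k, hk, hv⟩
      by_cases h : gad (s v) = b k
      · exact ⟨k, hk, h⟩
      · refine ⟨k + 1, by omega, ?_⟩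
        rw [hb, ho3 (b k) v hv h])
    have : o g ∈ ({v | ∃ k, m ≤ k ∧ gad v = b k} : Set (Fin 492)) := by rw [hS]; trivial
    obtain ⟨k, hk, hk2⟩ := this
    exact ⟨k, hk, Fin.ext (hk2.symm.trans (ho1 g))⟩
  -- the period
  have hex : ∃ k, 1 ≤ k ∧ b k = 0 := closed 1 0
  set N := Nat.find hex with hN
  obtain ⟨hN1, hN2⟩ := Nat.find_spec hex
  have hmin : ∀ k, 1 ≤ k → k < N → b k ≠ 0 := by
    intro k h1 h2 h3
    exact Nat.find_min hex h2 ⟨h1, h3⟩
  have hshift : ∀ i j k, b i = b j → b (i + k) = b (j + k) := by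
    intro i j k hij
    induction k with
    | zero => exact hij
    | succ k ih => rw [← add_assoc, ← add_assoc, hb, hb, ih]
  have hdist : ∀ i j, i < j → j < N → b i ≠ b j := by
    intro i j hij hjN h
    have h1 := hshift i j (N - j) h
    rw [show j + (N - j) = N by omega] at h1
    exact hmin (i + (N - j)) (by omega) (by omega) (h1.trans hN2)
  have hper : ∀ k, b k = b (k % N) := by
    intro k
    induction k using Nat.strong_induction_on with
    | _ k ih =>
      by_cases hk : k < N
      · rw [Nat.mod_eq_of_lt hk]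
      · have h1 : b k = b (k - N) := by
          have := hshift N 0 (k - N) (hN2.trans rfl)
          rwa [show N + (k - N) = k by omega, Nat.zero_add] at this
        rw [h1, ih (k - N) (by omega), Nat.mod_eq_sub_mod (not_lt.mp hk)]
  have hN12 : N = 12 := by
    apply le_antisymm
    · have hinj2 : Function.Injective (fun i : Fin N => b i) := by
        intro i j h
        by_contra hne
        rcases lt_or_gt_of_ne (fun h => hne (Fin.ext h) : (i : ℕ) ≠ j) with h1 | h1
        · exact hdist i j h1 j.2 h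
        · exact hdist j i h1 i.2 h.symm
      simpa using Fintype.card_le_of_injective _ hinj2
    · have hsur : Function.Surjective (fun i : Fin N => b i) := by
        intro g
        obtain ⟨k, -, hk⟩ := closed 0 g
        exact ⟨⟨k % N, Nat.mod_lt _ (by omega)⟩, by simpa using (hper k).symm.trans hk⟩
      simpa using Fintype.card_le_of_surjective _ hsur
  have h12 : a 12 = 0 := by
    have : b N = 0 := hN2
    rw [hN12] at this
    change ((b 12 : Fin 12) : ℕ) = 0
    rw [this]; rfl
  have := ham_sound a ha1 (fun i j hij hj h => hdist i j hij (by omega) (Fin.ext h)) h12 11 le_rfl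
  have h0 : a 0 = 0 := rfl
  simp only [Nat.sub_self, vis] at this
  rw [h0, check_ham] at this
  exact absurd this (by simp)

end Pool.Agent.H247R2.Ham4
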