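import Mathlib

set_option autoImplicit false

/-!
# An elementary Warren-type bound

The number of sign vectors (with values in `{-1, 0, 1}`) of `s` real polynomials of total degree at
most `d` in `k` variables is at most `(4 * s * d + 1) ^ k`.

Proof idea: for the product `F` of the polynomials, the function `F ^ 2 - δ * ∑ i, x i ^ (2 * m)`
with `m > s * d` and small `δ > 0` has a local maximum in every (open) sign cell; at such a point
`x i ^ (2 * m - 1)` equals a polynomial of smaller degree for every `i`, and such a system has at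
most `(2 * m - 1) ^ k` solutions by a linear algebra argument.
-/

open MvPolynomial

namespace Pool.Agent.H247R2.Warren

variable {ι : Type*} [Fintype ι]

/-! ### The number of common zeros -/

theorem zero_count (D : ℕ) (g : ι → MvPolynomial ι ℝ) (hg : ∀ i, (g i).totalDegree < D)
    (Z : Finset (ι → ℝ)) (hZ : ∀ z ∈ Z, ∀ i, z i ^ D = eval z (g i)) :
    Z.card ≤ D ^ Fintype.card ι := by
  classical
  let E : MvPolynomial ι ℝ →ₗ[ℝ] (Z → ℝ) :=
    LinearMap.pi (fun z => (aeval (z : ι → ℝ) : MvPolynomial ι ℝ →ₐ[ℝ] ℝ).toLinearMap)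
  have hE : ∀ (p : MvPolynomial ι ℝ) (z : Z), E p z = eval (z : ι → ℝ) p := by
    intro p z
    simp [E]
  let b : (ι → Fin D) → MvPolynomial ι ℝ := fun m =>
    monomial (Finsupp.equivFunOnFinite.symm (fun i => (m i : ℕ))) 1
  let W : Submodule ℝ (Z → ℝ) := Submodule.span ℝ (Set.range (fun m => E (b m)))
  have hmono : ∀ n : ℕ, ∀ m : ι →₀ ℕ, (m.sum fun _ e => e) = n → E (monomial m 1) ∈ W := by
    intro n
    induction n using Nat.strong_induction_on with
    | _ n ih =>
      intro m hm
      by_cases hlt : ∀ i, m i < D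
      · apply Submodule.subset_span
        refine ⟨fun i => ⟨m i, hlt i⟩, ?_⟩
        simp only [b]
        congr 2
        ext i
        simp
      · push Not at hlt
        obtain ⟨i, hi⟩ := hlt
        -- reduce
        set m' : ι →₀ ℕ := m - Finsupp.single i D with hm'
        have hmm : m = m' + Finsupp.single i D := by
          rw [hm', tsub_add_cancel_of_le]
          intro j
          by_cases hj : j = i
          · subst hj; simpa using hi
          · rw [Finsupp.single_apply, if_neg (Ne.symm hj)]; exact Nat.zero_le _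
        have hdeg : (m'.sum fun _ e => e) + D = n := by
          rw [← hm, hmm, Finsupp.sum_add_index' (by simp) (by simp), Finsupp.sum_single_index rfl]
        have heq : E (monomial m 1) = E (monomial m' 1 * g i) := by
          funext z
          rw [hE, hE, hmm, map_mul, ← hZ z z.2 i]
          have : (monomial (m' + Finsupp.single i D) (1 : ℝ)) = monomial m' 1 * (X i) ^ D := by
            rw [X_pow_eq_monomial, monomial_mul, one_mul]
          rw [this, map_mul, map_pow, eval_X]
        have hq : (monomial m' (1 : ℝ) * g i).totalDegree < n := by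
          have h1 := totalDegree_mul (monomial m' (1 : ℝ)) (g i)
          have h2 : (monomial m' (1 : ℝ)).totalDegree ≤ m'.sum fun _ e => e :=
            totalDegree_monomial_le m' (1 : ℝ)
          have h3 := hg i
          omega
        rw [heq, MvPolynomial.as_sum (monomial m' (1 : ℝ) * g i), map_sum]
        apply Submodule.sum_mem
        intro v hv
        have hvd := le_totalDegree hv
        have h4 : (monomial v (coeff v (monomial m' (1 : ℝ) * g i)) : MvPolynomial ι ℝ) =
            (coeff v (monomial m' (1 : ℝ) * g i)) • monomial v 1 := by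
          rw [smul_monomial, smul_eq_mul, mul_one]
        rw [h4, map_smul]
        exact W.smul_mem _ (ih _ (lt_of_le_of_lt hvd hq) v rfl)
  have hall : ∀ p, E p ∈ W := by
    intro p
    rw [MvPolynomial.as_sum p, map_sum]
    apply Submodule.sum_mem
    intro v _
    have h4 : (monomial v (coeff v p) : MvPolynomial ι ℝ) = (coeff v p) • monomial v 1 := by
      rw [smul_monomial, smul_eq_mul, mul_one]
    rw [h4, map_smul]
    exact W.smul_mem _ (hmono _ v rfl)
  have htop : W = ⊤ := by
    rw [eq_top_iff]
    intro u _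
    -- separating polynomials
    let P : Z → MvPolynomial ι ℝ := fun z =>
      ∏ z' ∈ Finset.univ.erase z, ∑ i, (X i - C ((z' : ι → ℝ) i)) ^ 2
    have hP1 : ∀ z : Z, eval (z : ι → ℝ) (P z) ≠ 0 := by
      intro z
      simp only [P, map_prod, map_sum, map_pow, map_sub, eval_X, eval_C]
      rw [Finset.prod_ne_zero_iff]
      intro z' hz' h0
      rw [Finset.sum_eq_zero_iff_of_nonneg (fun _ _ => sq_nonneg _)] at h0
      apply Finset.ne_of_mem_erase hz'
      apply Subtype.ext
      funext i
      have := h0 i (Finset.mem_univ i)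
      have h2 := pow_eq_zero_iff (two_ne_zero) |>.mp this
      linarith
    have hP2 : ∀ z z' : Z, z ≠ z' → eval (z' : ι → ℝ) (P z) = 0 := by
      intro z z' h
      simp only [P, map_prod, map_sum, map_pow, map_sub, eval_X, eval_C]
      apply Finset.prod_eq_zero (Finset.mem_erase.mpr ⟨Ne.symm h, Finset.mem_univ z'⟩)
      apply Finset.sum_eq_zero
      intro i _
      ring
    have hu : u = ∑ z, (u z / eval (z : ι → ℝ) (P z)) • E (P z) := by
      funext z'
      rw [Finset.sum_apply, Finset.sum_eq_single z']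
      · rw [Pi.smul_apply, hE, smul_eq_mul, div_mul_cancel₀ _ (hP1 z')]
      · intro z _ hz
        rw [Pi.smul_apply, hE, hP2 z z' hz, smul_zero]
      · intro h; exact absurd (Finset.mem_univ _) h
    rw [hu]
    exact Submodule.sum_mem _ (fun z _ => W.smul_mem _ (hall _))
  have h1 : Module.finrank ℝ W ≤ Fintype.card (ι → Fin D) := finrank_range_le_card _
  rw [htop, finrank_top, Module.finrank_fintype_fun_eq_card, Fintype.card_coe] at h1
  simpa using h1

/-! ### Partial derivatives -/

omit [Fintype ι] in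
theorem hasDerivAt_update [DecidableEq ι] (x : ι → ℝ) (i : ι) (p : MvPolynomial ι ℝ) (t : ℝ) :
    HasDerivAt (fun t => eval (Function.update x i t) p)
      (eval (Function.update x i t) (pderiv i p)) t := by
  induction p using MvPolynomial.induction_on with
  | C a =>
    simp only [eval_C, pderiv_C, map_zero]
    exact hasDerivAt_const t a
  | add p q hp hq =>
    simp only [map_add]
    exact hp.add hq
  | mul_X p j hp =>
    have hj : HasDerivAt (fun t => Function.update x i t j) (if j = i then 1 else 0) t := by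
      by_cases h : j = i
      · subst h
        simp only [Function.update_self, if_true]
        exact hasDerivAt_id t
      · simp only [Function.update_of_ne h, if_neg h]
        exact hasDerivAt_const t _
    have h := hp.fun_mul hj
    have e1 : (fun t => eval (Function.update x i t) (p * X j)) =
        (fun t => eval (Function.update x i t) p * Function.update x i t j) := by
      funext t
      simp
    rw [e1]
    refine h.congr_deriv ?_
    rw [pderiv_mul, map_add, map_mul, map_mul, eval_X, pderiv_X]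
    congr 2
    by_cases hji : j = i
    · subst hji; simp
    · rw [if_neg hji, Pi.single_eq_of_ne hji]; simp

omit [Fintype ι] in
theorem totalDegree_pderiv_le (i : ι) (p : MvPolynomial ι ℝ) :
    (pderiv i p).totalDegree ≤ p.totalDegree := by
  classical
  unfold totalDegree
  apply Finset.sup_le
  intro m hm
  rw [mem_support_iff, coeff_pderiv] at hm
  have h1 : m + Finsupp.single i 1 ∈ p.support := by
    rw [mem_support_iff]
    intro h0
    rw [h0, zero_mul] at hm
    exact hm rfl
  have h2 := Finset.le_sup (f := fun s : ι →₀ ℕ => s.sum fun _ e => e) h1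
  refine le_trans ?_ h2
  rw [Finsupp.sum_add_index' (by simp) (by simp)]
  exact Nat.le_add_right _ _

/-! ### Growth of polynomials -/

theorem eval_bound (p : MvPolynomial ι ℝ) : ∃ C : ℝ, 0 ≤ C ∧ ∀ (x : ι → ℝ) (r : ℝ), 1 ≤ r → ‖x‖ ≤ r →
    |eval x p| ≤ C * r ^ p.totalDegree := by
  classical
  refine ⟨∑ m ∈ p.support, |coeff m p|, Finset.sum_nonneg (fun _ _ => abs_nonneg _), ?_⟩
  intro x r hr hx
  rw [eval_eq, Finset.sum_mul]
  refine (Finset.abs_sum_le_sum_abs _ _).trans (Finset.sum_le_sum ?_)
  intro m hm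
  rw [abs_mul, Finset.abs_prod]
  apply mul_le_mul_of_nonneg_left _ (abs_nonneg _)
  have h1 : ∏ i ∈ m.support, |x i ^ m i| ≤ ∏ i ∈ m.support, r ^ m i := by
    apply Finset.prod_le_prod (fun _ _ => abs_nonneg _)
    intro i _
    rw [abs_pow]
    have h2 : |x i| ≤ r := (norm_le_pi_norm x i).trans hx
    exact pow_le_pow_left₀ (abs_nonneg _) h2 _
  refine h1.trans ?_
  rw [Finset.prod_pow_eq_pow_sum]
  exact pow_le_pow_right₀ hr (le_totalDegree hm)

theorem exists_coord [Nonempty ι] (x : ι → ℝ) : ∃ i, |x i| = ‖x‖ := by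
  obtain ⟨i, hi⟩ := Finite.exists_max (fun i => |x i|)
  refine ⟨i, le_antisymm (norm_le_pi_norm x i) ?_⟩
  rw [pi_norm_le_iff_of_nonempty]
  intro j
  exact hi j

/-- `F ^ 2 - δ * ∑ x i ^ (2 m)` is nonpositive far away from the origin. -/
theorem coercive (F : MvPolynomial ι ℝ) (a : ℕ) (hF : F.totalDegree ≤ a) (δ : ℝ) (hδ : 0 < δ) :
    ∃ R : ℝ, ∀ x : ι → ℝ, R ≤ ‖x‖ →
      (eval x F) ^ 2 - δ * ∑ i, x i ^ (2 * (a + 1)) ≤ 0 := by
  obtain ⟨C, hC, hb⟩ := eval_bound (F ^ 2)
  refine ⟨max 1 (C / δ), ?_⟩
  intro x hx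
  have h1 : 1 ≤ ‖x‖ := le_trans (le_max_left _ _) hx
  have h2 : C / δ ≤ ‖x‖ := le_trans (le_max_right _ _) hx
  have hne : Nonempty ι := by
    by_contra hcon
    rw [not_nonempty_iff] at hcon
    have : x = 0 := funext (fun i => hcon.elim i)
    rw [this, norm_zero] at h1
    linarith
  obtain ⟨i, hi⟩ := exists_coord x
  have h3 := hb x ‖x‖ h1 le_rfl
  have h4 : (F ^ 2).totalDegree ≤ 2 * a := (totalDegree_pow F 2).trans (by omega)
  have h5 : C * ‖x‖ ^ (F ^ 2).totalDegree ≤ C * ‖x‖ ^ (2 * a) :=
    mul_le_mul_of_nonneg_left (pow_le_pow_right₀ h1 h4) hC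
  have h6 : (eval x F) ^ 2 ≤ C * ‖x‖ ^ (2 * a) := by
    have := le_abs_self (eval x (F ^ 2))
    rw [map_pow] at this h3
    linarith
  have h7 : ‖x‖ ^ (2 * (a + 1)) ≤ ∑ i, x i ^ (2 * (a + 1)) := by
    have e1 : ‖x‖ ^ (2 * (a + 1)) = x i ^ (2 * (a + 1)) := by
      rw [← hi, pow_mul, sq_abs, ← pow_mul]
    rw [e1]
    exact Finset.single_le_sum (f := fun i => x i ^ (2 * (a + 1)))
      (fun j _ => by rw [pow_mul]; positivity) (Finset.mem_univ i)
  have h8 : C ≤ δ * ‖x‖ := by
    rw [div_le_iff₀ hδ] at h2
    linarith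
  have h9 : C * ‖x‖ ^ (2 * a) ≤ δ * ‖x‖ ^ (2 * (a + 1)) := by
    have e2 : δ * ‖x‖ ^ (2 * (a + 1)) = (δ * ‖x‖) * ‖x‖ * ‖x‖ ^ (2 * a) := by ring
    rw [e2]
    apply mul_le_mul_of_nonneg_right _ (by positivity)
    nlinarith [norm_nonneg x]
  have h10 : δ * ‖x‖ ^ (2 * (a + 1)) ≤ δ * ∑ i, x i ^ (2 * (a + 1)) :=
    mul_le_mul_of_nonneg_left h7 hδ.le
  linarith

/-! ### Critical points in sign cells -/

theorem exists_critical {J : Type*} [Fintype J] (f : J → MvPolynomial ι ℝ) (a : ℕ)
    (hF : (∏ j, f j).totalDegree ≤ a) (σ : J → SignType) (hσ : ∀ j, σ j ≠ 0) (x₀ : ι → ℝ)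
    (hx₀ : ∀ j, SignType.sign (eval x₀ (f j)) = σ j) (δ : ℝ) (hδ : 0 < δ)
    (hpos : δ * ∑ i, x₀ i ^ (2 * (a + 1)) < (eval x₀ (∏ j, f j)) ^ 2) :
    ∃ x : ι → ℝ, (∀ j, SignType.sign (eval x (f j)) = σ j) ∧
      ∀ i, x i ^ (2 * a + 1) =
        eval x (C (1 / (δ * (2 * (a + 1)))) * pderiv i ((∏ j, f j) ^ 2)) := by
  classical
  set F := ∏ j, f j with hFdef
  set G : (ι → ℝ) → ℝ := fun x => (eval x F) ^ 2 - δ * ∑ i, x i ^ (2 * (a + 1)) with hG
  obtain ⟨R, hR⟩ := coercive F a hF δ hδ
  have hGcont : Continuous G := by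
    apply Continuous.sub
    · exact (continuous_eval F).pow 2
    · exact continuous_const.mul (continuous_finsetSum _ (fun i _ => (continuous_apply i).pow _))
  let cl : Set (ι → ℝ) := {x | ∀ j, 0 ≤ ((σ j : ℝ)) * eval x (f j)}
  have hcl : IsClosed cl := by
    simp only [cl, Set.ofPred_forall]
    exact isClosed_iInter (fun j => isClosed_le continuous_const
      (continuous_const.mul (continuous_eval (f j))))
  let K := cl ∩ Metric.closedBall 0 R
  have hK : IsCompact K := (isCompact_closedBall 0 R).inter_left hcl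
  have hsign : ∀ (x : ι → ℝ) (j : J), SignType.sign (eval x (f j)) = σ j →
      0 < ((σ j : ℝ)) * eval x (f j) := by
    intro x j h
    rcases hs : σ j with _ | _ | _
    · exact absurd hs (hσ j)
    · rw [hs] at h
      have : eval x (f j) < 0 := by
        rw [← sign_eq_neg_one_iff]; exact h
      simp
      exact this
    · rw [hs] at h
      have : 0 < eval x (f j) := by
        rw [← sign_eq_one_iff]; exact h
      simp
      exact this
  have hG0 : 0 < G x₀ := by simp only [hG]; linarith
  have hx₀K : x₀ ∈ K := by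
    refine ⟨fun j => (hsign x₀ j (hx₀ j)).le, ?_⟩
    rw [mem_closedBall_zero_iff]
    by_contra hcon
    exact absurd (hR x₀ (not_le.mp hcon).le) (not_le.mpr hG0)
  obtain ⟨x, hxK, hmax⟩ := hK.exists_isMaxOn ⟨x₀, hx₀K⟩ hGcont.continuousOn
  have hGx : 0 < G x := lt_of_lt_of_le hG0 (hmax hx₀K)
  have hxR : ‖x‖ < R := by
    by_contra hcon
    exact absurd (hR x (not_lt.mp hcon)) (not_le.mpr hGx)
  have hFx : eval x F ≠ 0 := by
    intro h0
    have : G x ≤ 0 := by
      simp only [hG, h0]
      have : 0 ≤ δ * ∑ i, x i ^ (2 * (a + 1)) := by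
        apply mul_nonneg hδ.le
        apply Finset.sum_nonneg
        intro i _
        rw [pow_mul]; positivity
      linarith [this]
    linarith
  have hfx : ∀ j, eval x (f j) ≠ 0 := by
    intro j h0
    apply hFx
    rw [hFdef, map_prod]
    exact Finset.prod_eq_zero (Finset.mem_univ j) h0
  have hfpos : ∀ j, 0 < ((σ j : ℝ)) * eval x (f j) := by
    intro j
    refine lt_of_le_of_ne (hxK.1 j) (Ne.symm ?_)
    apply mul_ne_zero _ (hfx j)
    intro h0
    rcases hs : σ j with _ | _ | _
    · exact hσ j hs
    · rw [hs] at h0; simp at h0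
    · rw [hs] at h0; simp at h0
  refine ⟨x, ?_, ?_⟩
  · intro j
    have := hfpos j
    rcases hs : σ j with _ | _ | _
    · exact absurd hs (hσ j)
    · rw [hs] at this
      simp at this
      exact sign_eq_neg_one_iff.mpr this
    · rw [hs] at this
      simp at this
      exact sign_eq_one_iff.mpr this
  · intro i
    have hloc : IsLocalMax G x := by
      have hopen : ∀ᶠ y in nhds x, y ∈ K := by
        have h1 : ∀ᶠ y in nhds x, ∀ j, 0 < ((σ j : ℝ)) * eval y (f j) := by
          rw [Filter.eventually_all]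
          intro j
          exact (continuous_const.mul (continuous_eval (f j))).continuousAt.eventually
            (lt_mem_nhds (hfpos j))
        have h2 : ∀ᶠ y in nhds x, ‖y‖ < R :=
          continuous_norm.continuousAt.eventually (gt_mem_nhds hxR)
        filter_upwards [h1, h2] with y hy1 hy2
        exact ⟨fun j => (hy1 j).le, by rw [mem_closedBall_zero_iff]; exact hy2.le⟩
      filter_upwards [hopen] with y hy
      exact hmax hy
    -- restrict to the line
    have hupd : Function.update x i (x i) = x := Function.update_eq_self i x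
    have hcontU : Continuous (fun t => Function.update x i t) := by
      exact continuous_const.update i continuous_id
    have hloc2 : IsLocalMax (fun t => G (Function.update x i t)) (x i) := by
      have : Filter.Tendsto (fun t => Function.update x i t) (nhds (x i)) (nhds x) := by
        have h := hcontU.tendsto (x i)
        rwa [hupd] at h
      have h2 := this.eventually hloc
      change ∀ᶠ t in nhds (x i), G (Function.update x i t) ≤ G (Function.update x i (x i))
      rw [hupd]
      exact h2
    have hder : HasDerivAt (fun t => G (Function.update x i t))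
        (eval x (pderiv i (F ^ 2)) - δ * (2 * (a + 1) * x i ^ (2 * a + 1))) (x i) := by
      have d1 := hasDerivAt_update x i (F ^ 2) (x i)
      rw [hupd] at d1
      have d2 : HasDerivAt (fun t => ∑ k, (Function.update x i t k) ^ (2 * (a + 1)))
          (2 * (a + 1) * x i ^ (2 * a + 1)) (x i) := by
        have e : ∀ k, HasDerivAt (fun t => (Function.update x i t k) ^ (2 * (a + 1)))
            (if k = i then 2 * (a + 1) * x i ^ (2 * a + 1) else 0) (x i) := by
          intro k
          by_cases hk : k = i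
          · subst hk
            simp only [Function.update_self, if_true]
            refine (hasDerivAt_pow (2 * (a + 1)) (x k)).congr_deriv ?_
            rw [show 2 * (a + 1) - 1 = 2 * a + 1 by omega]
            push_cast
            ring
          · simp only [Function.update_of_ne hk, if_neg hk]
            exact hasDerivAt_const _ _
        have := HasDerivAt.fun_sum (fun k (_ : k ∈ Finset.univ) => e k)
        rw [Finset.sum_ite_eq' Finset.univ i, if_pos (Finset.mem_univ i)] at this
        exact this
      have d3 := d1.fun_sub (d2.const_mul δ)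
      have e : (fun t => G (Function.update x i t)) = fun t => eval (Function.update x i t) (F ^ 2) -
          δ * ∑ k, (Function.update x i t k) ^ (2 * (a + 1)) := by
        funext t
        simp [hG]
      rw [e]
      exact d3
    have h0 := hloc2.hasDerivAt_eq_zero hder
    rw [map_mul, eval_C]
    have hne : δ * (2 * ((a : ℝ) + 1)) ≠ 0 := by positivity
    field_simp
    linarith

/-- The number of sign vectors without zero entries. -/
theorem strict_count {J : Type*} [Fintype J] (f : J → MvPolynomial ι ℝ) (d : ℕ)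
    (hd : ∀ j, (f j).totalDegree ≤ d) (S : Finset (J → SignType))
    (hS : ∀ σ ∈ S, (∀ j, σ j ≠ 0) ∧ ∃ x : ι → ℝ, ∀ j, SignType.sign (eval x (f j)) = σ j) :
    S.card ≤ (2 * (Fintype.card J * d) + 1) ^ Fintype.card ι := by
  classical
  set a := Fintype.card J * d with ha
  have hF : (∏ j, f j).totalDegree ≤ a := by
    refine (totalDegree_finsetProd _ _).trans ?_
    refine (Finset.sum_le_sum (fun j _ => hd j)).trans ?_
    simp [ha]
  -- choose points
  have hS' : ∀ σ : S, ∃ x : ι → ℝ, ∀ j, SignType.sign (eval x (f j)) = (σ : J → SignType) j :=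
    fun σ => (hS σ σ.2).2
  choose x₀ hx₀ using hS'
  have hne : ∀ σ : S, 0 < (eval (x₀ σ) (∏ j, f j)) ^ 2 := by
    intro σ
    have h2 : eval (x₀ σ) (∏ j, f j) ≠ 0 := by
      rw [map_prod, Finset.prod_ne_zero_iff]
      intro j _ h0
      have h1 := hx₀ σ j
      rw [h0, sign_zero] at h1
      exact (hS σ σ.2).1 j h1.symm
    exact lt_of_le_of_ne (sq_nonneg _) (Ne.symm (pow_ne_zero 2 h2))
  obtain ⟨δ, hδ, hall⟩ : ∃ δ : ℝ, 0 < δ ∧ ∀ σ : S,
      δ * ∑ i, x₀ σ i ^ (2 * (a + 1)) < (eval (x₀ σ) (∏ j, f j)) ^ 2 := by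
    have h1 : ∀ᶠ δ in nhdsWithin (0 : ℝ) (Set.Ioi 0), ∀ σ : S,
        δ * ∑ i, x₀ σ i ^ (2 * (a + 1)) < (eval (x₀ σ) (∏ j, f j)) ^ 2 := by
      rw [Filter.eventually_all]
      intro σ
      apply Filter.Eventually.filter_mono nhdsWithin_le_nhds
      have hc : Continuous (fun δ : ℝ => δ * ∑ i, x₀ σ i ^ (2 * (a + 1))) :=
        continuous_id.mul continuous_const
      have := hc.tendsto 0
      rw [zero_mul] at this
      exact this.eventually (gt_mem_nhds (hne σ))
    obtain ⟨δ, h2, h3⟩ := (h1.and self_mem_nhdsWithin).exists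
    exact ⟨δ, h3, h2⟩
  have hcrit : ∀ σ : S, ∃ x : ι → ℝ, (∀ j, SignType.sign (eval x (f j)) = (σ : J → SignType) j) ∧
      ∀ i, x i ^ (2 * a + 1) =
        eval x (C (1 / (δ * (2 * (a + 1)))) * pderiv i ((∏ j, f j) ^ 2)) :=
    fun σ => exists_critical f a hF σ (hS σ σ.2).1 (x₀ σ) (hx₀ σ) δ hδ (hall σ)
  choose y hy1 hy2 using hcrit
  have hyinj : Function.Injective y := by
    intro σ τ h
    apply Subtype.ext
    funext j
    rw [← hy1 σ j, ← hy1 τ j, h]
  have hdeg : ∀ i, (C (1 / (δ * (2 * (a + 1)))) * pderiv i ((∏ j, f j) ^ 2) :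
      MvPolynomial ι ℝ).totalDegree < 2 * a + 1 := by
    intro i
    have h1 := totalDegree_mul (C (1 / (δ * (2 * ((a : ℝ) + 1)))) : MvPolynomial ι ℝ)
      (pderiv i ((∏ j, f j) ^ 2))
    have h2 := totalDegree_pderiv_le i ((∏ j, f j) ^ 2)
    have h3 := totalDegree_pow (∏ j, f j) 2
    rw [totalDegree_C] at h1
    omega
  have := zero_count (2 * a + 1) _ hdeg (Finset.univ.image y) (by
    intro z hz i
    rw [Finset.mem_image] at hz
    obtain ⟨σ, -, rfl⟩ := hz
    exact hy2 σ i)
  rw [Finset.card_image_of_injective _ hyinj] at this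
  simpa using this

/-- The number of sign vectors (zero entries allowed) of `s` polynomials of degree at most `d` in
`k` real variables is at most `(4 s d + 1) ^ k`. -/
theorem sign_count {J : Type*} [Fintype J] (f : J → MvPolynomial ι ℝ) (d : ℕ)
    (hd : ∀ j, (f j).totalDegree ≤ d) (S : Finset (J → SignType))
    (hS : ∀ σ ∈ S, ∃ x : ι → ℝ, ∀ j, SignType.sign (eval x (f j)) = σ j) :
    S.card ≤ (4 * (Fintype.card J * d) + 1) ^ Fintype.card ι := by
  classical
  have hS' : ∀ σ : S, ∃ x : ι → ℝ, ∀ j, SignType.sign (eval x (f j)) = (σ : J → SignType) j :=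
    fun σ => hS σ σ.2
  choose x hx using hS'
  obtain ⟨ε, hε, hall⟩ : ∃ ε : ℝ, 0 < ε ∧ ∀ (σ : S) (j : J), eval (x σ) (f j) ≠ 0 →
      ε < |eval (x σ) (f j)| := by
    have h1 : ∀ᶠ ε in nhdsWithin (0 : ℝ) (Set.Ioi 0), ∀ (σ : S) (j : J),
        eval (x σ) (f j) ≠ 0 → ε < |eval (x σ) (f j)| := by
      rw [Filter.eventually_all]
      intro σ
      rw [Filter.eventually_all]
      intro j
      by_cases h0 : eval (x σ) (f j) = 0
      · exact Filter.Eventually.of_forall (fun _ h => absurd h0 h)
      · apply Filter.Eventually.filter_mono nhdsWithin_le_nhds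
        filter_upwards [gt_mem_nhds (abs_pos.mpr h0)] with ε hε _
        exact hε
    obtain ⟨ε, h2, h3⟩ := (h1.and self_mem_nhdsWithin).exists
    exact ⟨ε, h3, h2⟩
  let g : J × Bool → MvPolynomial ι ℝ := fun p => if p.2 then f p.1 - C ε else f p.1 + C ε
  have hg : ∀ p, (g p).totalDegree ≤ d := by
    rintro ⟨j, b⟩
    cases b
    · simp only [g, Bool.false_eq_true, if_false]
      refine (totalDegree_add _ _).trans ?_
      rw [totalDegree_C]
      simpa using hd j
    · simp only [g, if_true]
      refine (totalDegree_sub _ _).trans ?_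
      rw [totalDegree_C]
      simpa using hd j
  let Φ : S → (J × Bool → SignType) := fun σ p => SignType.sign (eval (x σ) (g p))
  have key : ∀ (σ : S) (j : J), (Φ σ (j, true) = 1 ↔ (σ : J → SignType) j = 1) ∧
      (Φ σ (j, false) = -1 ↔ (σ : J → SignType) j = -1) ∧ Φ σ (j, true) ≠ 0 ∧
      Φ σ (j, false) ≠ 0 := by
    intro σ j
    have h := hall σ j
    rw [← hx σ j]
    simp only [Φ, g, if_true, Bool.false_eq_true, if_false, map_sub, map_add, eval_C]
    rw [sign_eq_one_iff, sign_eq_one_iff, sign_eq_neg_one_iff, sign_eq_neg_one_iff, ne_eq,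
      sign_eq_zero_iff, ne_eq, sign_eq_zero_iff]
    set v := eval (x σ) (f j) with hv
    rcases lt_trichotomy v 0 with h1 | h1 | h1
    · have h2 := h h1.ne
      rw [abs_of_neg h1] at h2
      refine ⟨⟨fun _ => by linarith, fun _ => by linarith⟩, ⟨fun _ => h1, fun _ => by linarith⟩,
        fun _ => by linarith, fun _ => by linarith⟩
    · rw [h1]
      refine ⟨⟨fun _ => by linarith, fun _ => by linarith⟩, ⟨fun _ => by linarith, fun _ => by
        linarith⟩, fun _ => by linarith, fun _ => by linarith⟩
    · have h2 := h h1.ne'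
      rw [abs_of_pos h1] at h2
      refine ⟨⟨fun _ => by linarith, fun _ => by linarith⟩, ⟨fun _ => by linarith, fun _ => by
        linarith⟩, fun _ => by linarith, fun _ => by linarith⟩
  have hΦ : Function.Injective Φ := by
    intro σ τ h
    apply Subtype.ext
    funext j
    have h1 := key σ j
    have h2 := key τ j
    rw [h] at h1
    have e1 : (σ : J → SignType) j = 1 ↔ (τ : J → SignType) j = 1 := h1.1.symm.trans h2.1
    have e2 : (σ : J → SignType) j = -1 ↔ (τ : J → SignType) j = -1 := h1.2.1.symm.trans h2.2.1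
    generalize (σ : J → SignType) j = u at e1 e2
    generalize (τ : J → SignType) j = w at e1 e2
    revert e1 e2
    revert u w
    decide
  have := strict_count g d hg (Finset.univ.image Φ) (by
    intro τ hτ
    rw [Finset.mem_image] at hτ
    obtain ⟨σ, -, rfl⟩ := hτ
    refine ⟨?_, x σ, fun p => rfl⟩
    rintro ⟨j, b⟩
    cases b
    · exact (key σ j).2.2.2
    · exact (key σ j).2.2.1)
  rw [Finset.card_image_of_injective _ hΦ] at this
  simp only [Finset.card_univ, Fintype.card_coe, Fintype.card_prod, Fintype.card_bool] at this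
  refine this.trans (le_of_eq ?_)
  congr 1
  ring

end Pool.Agent.H247R2.Warren
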